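import Pool.Agent.Y806.DM.Main

set_option autoImplicit false

/-!
The lengths of all bases, and the exact dimension, of the variety generated by a finite abelian
group (more generally by an abelian group of finite exponent); every generating subset of its
SC-theory contains a basis.  All definitions used in the statement are in
`Pool/Agent/Helper470/DimT/Stmt.lean`.
-/

namespace Pool.Agent.Results.MP_001d24_al.ExactDimension

open Pool.Agent.Helper470.DimT Pool.Agent.Y806.DM

/-- Let `A` be a finite abelian group, or an abelian group of finite exponent.  With nullary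
operation symbols allowed, every generating subset of the SC-theory of the variety generated by `A`
contains a basis with at most two elements, the lengths of the bases are exactly `1` and `2`, and
the dimension is `2`.  Without nullary symbols the same holds if `A` is nontrivial, and for the
trivial group all bases have length `1` and the dimension is `1`. -/
theorem result (A : Type) [CommGroup A] (h : Finite A ∨ Monoid.exponent A ≠ 0) :
    ((∀ B ⊆ SC anyArity (VG A), Generates B (SC anyArity (VG A)) →
        ∃ B' ⊆ B, IsBasis B' (SC anyArity (VG A)) ∧ B'.encard ≤ 2) ∧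
      {k : ℕ∞ | ∃ B : Set Cond, IsBasis B (SC anyArity (VG A)) ∧ B.encard = k} = {1, 2} ∧
      dim anyArity (VG A) = 2) ∧
    ((∀ B ⊆ SC posArity (VG A), Generates B (SC posArity (VG A)) →
        ∃ B' ⊆ B, IsBasis B' (SC posArity (VG A)) ∧ B'.encard ≤ 2) ∧
      (Nontrivial A →
        {k : ℕ∞ | ∃ B : Set Cond, IsBasis B (SC posArity (VG A)) ∧ B.encard = k} = {1, 2} ∧
        dim posArity (VG A) = 2) ∧
      (Subsingleton A →
        {k : ℕ∞ | ∃ B : Set Cond, IsBasis B (SC posArity (VG A)) ∧ B.encard = k} = {1} ∧
        dim posArity (VG A) = 1)) := by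
  have h0 : Monoid.exponent A ≠ 0 := by
    rcases h with h | h
    · exact Monoid.exponent_ne_zero_of_finite
    · exact h
  have hne : Nontrivial A → Monoid.exponent A ≠ 1 := by
    intro hA h
    have := Monoid.exp_eq_one_iff.1 h
    exact not_subsingleton A this
  refine ⟨⟨?_, ?_, ?_⟩, fun B hB hg => gen_basis (k0 := 1) le_rfl h0 B hB hg, fun hA =>
    ⟨lengths_eq (k0 := 1) le_rfl h0 (Or.inr (hne hA)),
      dim_eq (k0 := 1) le_rfl h0 (Or.inr (hne hA))⟩, fun hA => ?_⟩
  · have e1 := gen_basis (k0 := 0) (A := A) (Nat.zero_le 1) h0
    rw [adm_zero] at e1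
    exact e1
  · have e1 := lengths_eq (k0 := 0) (A := A) (Nat.zero_le 1) h0 (Or.inl rfl)
    rw [adm_zero] at e1
    exact e1
  · have e2 := dim_eq (k0 := 0) (A := A) (Nat.zero_le 1) h0 (Or.inl rfl)
    rw [adm_zero] at e2
    exact e2
  · have hA1 : Monoid.exponent A = 1 := Monoid.exp_eq_one_iff.2 hA
    exact ⟨lengths_triv hA1, dim_triv hA1⟩

end Pool.Agent.Results.MP_001d24_al.ExactDimension
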